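import Mathlib

namespace Pool.Agent.H.MP_6ba634_co

open Function Finset

lemma fill {R C : Type} [Fintype R] [Fintype C] [DecidableEq R] [DecidableEq C]
    (hc : Fintype.card C = Fintype.card R + 1) (hm : 8 ≤ Fintype.card R)
    {r1 r2 r3 : R} {z c1 c2 c3 : C} (h12 : r1 ≠ r2) (h13 : r1 ≠ r3) (h23 : r2 ≠ r3)
    (k12 : c1 ≠ c2) (k13 : c1 ≠ c3) (k23 : c2 ≠ c3) (k1 : c1 ≠ z) (k2 : c2 ≠ z) (k3 : c3 ≠ z)
    {a b : R → C} (ha : Injective a) (hb : Injective b) :
    ∃ f : R → C, (Injective f ∧ (∀ r, f r ≠ z) ∧ f r1 = c1 ∧ f r2 = c2 ∧ f r3 = c3) ∧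
      ∀ r, r ≠ r1 ∧ r ≠ r2 ∧ r ≠ r3 → f r ≠ a r ∧ f r ≠ b r := by
  let t : {r // r ≠ r1 ∧ r ≠ r2 ∧ r ≠ r3} → Finset C := fun r => univ \ {z, c1, c2, c3, a r, b r}
  have h3 : Fintype.card {r // r ≠ r1 ∧ r ≠ r2 ∧ r ≠ r3} + 3 = Fintype.card R := by
    rw [Fintype.card_subtype, show filter (fun r => r ≠ r1 ∧ r ≠ r2 ∧ r ≠ r3) univ =
      univ \ {r1, r2, r3} by ext; simp, card_univ_diff, card_eq_three.2 ⟨_, _, _, h12, h13, h23, rfl⟩]
    omega
  obtain ⟨f, hf, hft⟩ := (all_card_le_biUnion_card_iff_exists_injective t).1 fun s => by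
    rcases s.eq_empty_or_nonempty with rfl | ⟨r, hr⟩
    · simp
    by_cases hs : #s ≤ 2
    · refine hs.trans (le_trans ?_ (card_le_card (subset_biUnion_of_mem t hr)))
      have : #({z, c1, c2, c3, a r, b r} : Finset C) ≤ 6 := card_le_six
      rw [card_univ_diff]
      omega
    · refine (s.card_le_univ).trans (le_trans ?_ (card_le_card (s := univ \ {z, c1, c2, c3})
        fun y hy => ?_))
      · have : #({z, c1, c2, c3} : Finset C) ≤ 4 := card_le_four
        rw [card_univ_diff]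
        omega
      by_contra h
      simp only [mem_biUnion, t, mem_sdiff, mem_univ, true_and, mem_insert, mem_singleton, not_or,
        not_exists, not_and, not_not] at h hy
      apply hs
      refine (card_le_card (t := s.filter (fun r => a r.1 = y) ∪ s.filter (fun r => b r.1 = y))
        fun r hr => ?_).trans ((card_union_le _ _).trans (add_le_add (b := 1) (d := 1) ?_ ?_))
      · by_cases h1 : y = a r
        · simp [hr, h1]
        · simp [hr, h r hr hy.1 hy.2.1 hy.2.2.1 hy.2.2.2 h1]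
      · exact card_le_one.2 fun x hx y hy =>
          Subtype.ext (ha ((mem_filter.1 hx).2.trans (mem_filter.1 hy).2.symm))
      · exact card_le_one.2 fun x hx y hy =>
          Subtype.ext (hb ((mem_filter.1 hx).2.trans (mem_filter.1 hy).2.symm))
  simp only [t, mem_sdiff, mem_univ, true_and, mem_insert, mem_singleton, not_or] at hft
  refine ⟨fun r => if h : r ≠ r1 ∧ r ≠ r2 ∧ r ≠ r3 then f ⟨r, h⟩ else if r = r1 then c1 else
    if r = r2 then c2 else c3, ⟨fun x y h => ?_, fun r => ?_, by simp, by simp [h12.symm],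
    by simp [h13.symm, h23.symm]⟩, fun r h => ?_⟩
  · dsimp only at h
    by_cases hx : x ≠ r1 ∧ x ≠ r2 ∧ x ≠ r3 <;> by_cases hy : y ≠ r1 ∧ y ≠ r2 ∧ y ≠ r3
    · rw [dif_pos hx, dif_pos hy] at h; exact congrArg Subtype.val (hf h)
    · rw [dif_pos hx, dif_neg hy] at h; have := hft ⟨x, hx⟩; grind
    · rw [dif_neg hx, dif_pos hy] at h; have := hft ⟨y, hy⟩; grind
    · rw [dif_neg hx, dif_neg hy] at h; grind
  · dsimp only
    split_ifs with h
    · exact (hft _).1
    all_goals assumption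
  · dsimp only
    rw [dif_pos h]
    exact (hft ⟨r, h⟩).2.2.2.2

lemma design {ι R C : Type} [Fintype ι] [Fintype R] [Fintype C] [DecidableEq R] [DecidableEq C]
    (hc : Fintype.card C = Fintype.card R + 1) (hm : 8 ≤ Fintype.card R) (σ : Equiv.Perm ι)
    (g : ι → R) (μ : ι → C) (hg : ∀ i, g (σ i) ≠ g i ∧ g (σ (σ i)) ≠ g i ∧ g (σ (σ (σ i))) ≠ g i)
    (hμ : ∀ i, μ (σ i) ≠ μ i ∧ μ (σ (σ i)) ≠ μ i ∧ μ (σ (σ (σ i))) ≠ μ i) :
    ∃ c : ι → R → C, (∀ i, Injective (c i) ∧ (∀ r, c i r ≠ μ i) ∧ c i (g (σ.symm i)) = μ (σ.symm i) ∧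
      c i (g (σ i)) = μ (σ i) ∧ c i (g i) = μ (σ (σ i))) ∧ ∀ i r, c i r ≠ c (σ i) r := by
  classical
  let V : ι → (R → C) → Prop := fun i f => Injective f ∧ (∀ r, f r ≠ μ i) ∧
    f (g (σ.symm i)) = μ (σ.symm i) ∧ f (g (σ i)) = μ (σ i) ∧ f (g i) = μ (σ (σ i))
  let N : ι → R → Prop := fun i r => r ≠ g (σ.symm i) ∧ r ≠ g (σ i) ∧ r ≠ g i
  have F : ∀ i, ∀ a b : R → C, Injective a → Injective b →
      ∃ f, V i f ∧ ∀ r, N i r → f r ≠ a r ∧ f r ≠ b r := fun i a b ha hb => by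
    have h1 := hg (σ.symm i)
    have h2 := hμ (σ.symm i)
    simp only [Equiv.apply_symm_apply] at h1 h2
    exact fill hc hm h1.2.1.symm h1.1.symm (hg i).1 h2.2.1.symm h2.2.2.symm (hμ (σ i)).1.symm
      h2.1.symm (hμ i).1 (hμ i).2.1 ha hb
  have D : ∀ i f f' r, V i f → V (σ i) f' → ¬ N i r → ¬ N (σ i) r → f r ≠ f' r := by
    intro i f f' r ⟨_, _, a1, a2, a3⟩ ⟨_, _, b1, b2, b3⟩ n1 n2
    have h1 := hg (σ.symm i)
    have h2 := hg i
    have h3 := hg (σ i)
    have h4 := hμ i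
    have h5 := hμ (σ i)
    simp only [N, Equiv.apply_symm_apply, Equiv.symm_apply_apply, not_and_or, not_not] at *
    rcases n1 with rfl | rfl | rfl <;> rcases n2 with h | h | h <;> grind
  let W : ι → (R → C) → Prop := fun i f => V i f ∧ (∀ r f', ¬ N (σ i) r → V (σ i) f' → f r ≠ f' r) ∧
    ∀ r f', ¬ N (σ.symm i) r → V (σ.symm i) f' → f r ≠ f' r
  have E : ∀ i f f' r, V i f → V i f' → ¬ N i r → f r = f' r := by
    intro i f f' r ⟨_, _, a1, a2, a3⟩ ⟨_, _, b1, b2, b3⟩ n1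
    simp only [N, not_and_or, not_not] at n1
    rcases n1 with rfl | rfl | rfl <;> simp [*]
  have S : ∀ i a b, V (σ i) a → V (σ.symm i) b →
      ∃ f, W i f ∧ ∀ r, N i r → f r ≠ a r ∧ f r ≠ b r := fun i a b ha hb => by
    obtain ⟨f, h1, h2⟩ := F i a b ha.1 hb.1
    refine ⟨f, ⟨h1, fun r f' h3 h4 => ?_, fun r f' h3 h4 => ?_⟩, h2⟩
    · by_cases h : N i r
      · rw [E _ _ _ _ h4 ha h3]; exact (h2 r h).1
      · exact D _ _ _ _ h1 h4 h h3
    · by_cases h : N i r
      · rw [E _ _ _ _ h4 hb h3]; exact (h2 r h).2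
      · exact (D _ _ _ _ h4 (by simpa using h1) h3 (by simpa using h)).symm
  have I : ∀ T : Finset ι, ∃ c : ι → R → C, (∀ i, W i (c i)) ∧ ∀ i ∈ T, ∀ r, c i r ≠ c (σ i) r := by
    intro T
    induction T using Finset.induction_on with
    | empty =>
      obtain ⟨e⟩ := Function.Embedding.nonempty_of_card_le (α := R) (β := C) (by omega)
      choose c0 h0 _ using fun i => F i e e e.2 e.2
      choose c h _ using fun i => S i _ _ (h0 _) (h0 _)
      exact ⟨c, h, by simp⟩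
    | insert i T _ ih =>
      obtain ⟨c, h1, h2⟩ := ih
      obtain ⟨f, h3, h4⟩ := S i _ _ (h1 _).1 (h1 _).1
      have hne : ∀ j, σ j ≠ j := fun j h => (hg j).1 (by rw [h])
      refine ⟨update c i f, fun j => ?_, fun j hj r => ?_⟩
      · by_cases h : j = i
        · rwa [h, update_self]
        · rw [update_of_ne h]; exact h1 j
      by_cases h : j = i
      · rw [h, update_self, update_of_ne (hne i)]
        by_cases h5 : N i r
        · exact (h4 r h5).1
        · exact ((h1 (σ i)).2.2 r f (by simpa using h5) (by simpa using h3.1)).symm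
      rw [update_of_ne h]
      by_cases h6 : σ j = i
      · subst h6
        rw [update_self]
        by_cases h5 : N (σ j) r
        · simpa using (h4 r h5).2.symm
        · exact (h1 j).2.1 r f h5 h3.1
      · rw [update_of_ne h6]
        exact h2 j ((mem_insert.1 hj).resolve_left h) r
  obtain ⟨c, h1, h2⟩ := I univ
  exact ⟨c, fun i => (h1 i).1, fun i => h2 i (mem_univ _)⟩

end Pool.Agent.H.MP_6ba634_co
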